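import Pool.Agent.H482R3.EA.Stm

set_option autoImplicit false

/-! Project EA, task A2: consistency of the actions. -/

namespace Pool.Agent.H942R2.EA.A2

open Pool.Agent.H482R3.EA NF

lemma near_of_inD {S : Sys} {s : St S} {l : S.Ln} {p : S.P} (hp : S.I p l) (h : InD S l s) :
    Near S p s := by
  cases s with
  | none => exact h.elim
  | ln m =>
    change l = m at h
    subst h
    exact hp
  | pt r => exact ⟨l, h, hp⟩

lemma cf_pow (hR : S_REP) (S : Sys) (l : S.Ln) (q : S.P) (hq : S.I q l) (n : ℤ) :
    rep S l q (S.x l q ^ n) = 1 ∧ cf S l q (S.x l q ^ n) = n := by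
  have h1 := hR S l q hq (S.x l q ^ n)
  have h2 : rep S l q (S.x l q ^ n) = 1 := h1.2.2.2.1.2 ⟨n, rfl⟩
  refine ⟨h2, ?_⟩
  have h4 := h1.1
  rw [h2, mul_one] at h4
  have h5 : S.x l q ^ (n - cf S l q (S.x l q ^ n)) = 1 := by
    rw [zpow_sub, ← h4, mul_inv_cancel]
  have := S.X0 l q _ hq h5
  omega

lemma attM_pow (hR : S_REP) (S : Sys) (l : S.Ln) (q : S.P) (hq : S.I q l) (f : ℤ → NF S) (n : ℤ) :
    attM f q l (S.x l q ^ n) = f n := by
  obtain ⟨h2, h3⟩ := cf_pow hR S l q hq n
  unfold attM
  simp only [h2, h3, if_true]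

/-- if the state is the point `p` -/
lemma act_pt (hAN : S_ACTN) (hP : S_PTN) (S : Sys) (h : NF S) (p : S.P) (k : ℤ)
    (hv : Valid (.pt h p k : NF S)) (l : S.Ln) (hl : S.I p l) (n : ℤ) :
    act (.pt h p k) l (S.x l p ^ n) = if k + n = 0 then h else .pt h p (k + n) := by
  obtain ⟨hv1, -, hv3⟩ := hv
  have h1 : ¬ InD S l (st h) := fun h' => hv3 (near_of_inD hl h')
  have h2 : act (.pt h p k) l (S.x l p ^ n) = up h l (S.x l p ^ k * S.x l p ^ n) := by
    rw [act]
    simp only [if_pos hl]
  rw [h2, ← hAN S h l _ h1, ← zpow_add]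
  exact hP S h l p (k + n) hv1 hl hv3

theorem t_A2 (hR : S_REP) (_hU : S_UNI) (_hN : S_UPN) (hM : S_UPM) (hAN : S_ACTN) (_h0 : S_A0)
    (hP : S_PTN) : S_A2 := by
  intro S h l m p n hv hl hm
  by_cases hn : Near S p (st h)
  · by_cases hst : st h = .pt p
    · cases h with
      | one => exact absurd hst (by simp [st])
      | ln h' l' y => exact absurd hst (by simp [st])
      | pt h' r k =>
        have hr : r = p := by
          simpa [st] using hst
        subst hr
        rw [act_pt hAN hP S h' r k hv l hl n, act_pt hAN hP S h' r k hv m hm n]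
    · obtain ⟨m0, hm0, hpm0⟩ : ∃ m0, InD S m0 (st h) ∧ S.I p m0 := by
        generalize st h = s at hn
        cases s with
        | none => exact hn.elim
        | ln m' => exact ⟨m', rfl, hn⟩
        | pt r =>
          obtain ⟨m', h1, h2⟩ := hn
          exact ⟨m', h1, h2⟩
      have key : ∀ l : S.Ln, S.I p l → act h l (S.x l p ^ n) = act h m0 (S.x m0 p ^ n) := by
        intro l hl
        by_cases hD : InD S l (st h)
        · have hlm : l = m0 := by
            generalize st h = s at hD hm0 hst
            cases s with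
            | none => exact hD.elim
            | ln m' =>
              change l = m' at hD
              change m0 = m' at hm0
              rw [hD, hm0]
            | pt r =>
              by_contra hne
              have := S.G1 l m0 p r hne hl hD hpm0 hm0
              exact hst (by rw [this])
          subst hlm
          rfl
        · rw [hAN S h l _ hD, hM S h l _ p m0 hD hl hn hm0 hpm0, attM_pow hR S l p hl]
      rw [key l hl, key m hm]
  · rw [hP S h l p n hv hl hn, hP S h m p n hv hm hn]

end Pool.Agent.H942R2.EA.A2
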